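import Mathlib

/-! # A surviving-relation quotient with torsion, over the cyclic group of order 11 -/

set_option autoImplicit false

namespace Pool.Agent.Results.MP_7c4268_al.TorsionCyclicEleven

/-- The set `R_S` of the relations `r(g, h, k) = {h,k} {g,hk} {g,h}⁻¹ {gh,k}⁻¹` all four of whose
pairs belong to `S`, as a subset of the free abelian group `F_S = (S →₀ ℤ)` (written additively) -/
def RS {G : Type*} [CommGroup G] (S : Set (Sym2 G)) : Set (S →₀ ℤ) :=
  {x | ∃ (g h k : G) (h1 : s(g, h) ∈ S) (h2 : s(g * h, k) ∈ S) (h3 : s(h, k) ∈ S)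
    (h4 : s(g, h * k) ∈ S), x = Finsupp.single ⟨s(h, k), h3⟩ 1 + Finsupp.single ⟨s(g, h * k), h4⟩ 1 -
      Finsupp.single ⟨s(g, h), h1⟩ 1 - Finsupp.single ⟨s(g * h, k), h2⟩ 1}

/-- the quotient `F_S / ⟨R_S⟩` -/
abbrev Quo {G : Type*} [CommGroup G] (S : Set (Sym2 G)) : Type _ :=
  (S →₀ ℤ) ⧸ AddSubgroup.closure (RS S)

/-- the cyclic group of order `11`, written multiplicatively -/
abbrev C11 : Type := Multiplicative (ZMod 11)

/-- the element `n` of the cyclic group -/
def el (n : ZMod 11) : C11 := Multiplicative.ofAdd n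

/-- twenty pairs -/
def T : Finset (Sym2 C11) := {s(el 1, el 2), s(el 1, el 6), s(el 1, el 8), s(el 2, el 3), s(el 2, el 4), s(el 2, el 6), s(el 2, el 7), s(el 3, el 3), s(el 3, el 5), s(el 3, el 9), s(el 3, el 10), s(el 4, el 5), s(el 4, el 8), s(el 4, el 10), s(el 5, el 7), s(el 6, el 7), s(el 6, el 8), s(el 7, el 7), s(el 7, el 8), s(el 7, el 10)}

/-- the set of the twenty pairs -/
def S : Set (Sym2 C11) := {p | p ∈ T}

/-- the class of the pair `p` in the quotient -/
noncomputable def q (p : Sym2 C11) (hp : p ∈ T) : Quo S :=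
  QuotientAddGroup.mk (Finsupp.single (⟨p, hp⟩ : S) (1 : ℤ))

theorem q_rel (g h k : C11) (p1 p2 p3 p4 : Sym2 C11) (e1 : p1 = s(h, k)) (e2 : p2 = s(g, h * k))
    (e3 : p3 = s(g, h)) (e4 : p4 = s(g * h, k)) (m1 : p1 ∈ T) (m2 : p2 ∈ T) (m3 : p3 ∈ T)
    (m4 : p4 ∈ T) : q p1 m1 + q p2 m2 = q p3 m3 + q p4 m4 := by
  subst e1 e2 e3 e4
  rw [← sub_eq_zero]
  unfold q
  rw [← QuotientAddGroup.mk_add, ← QuotientAddGroup.mk_add, ← QuotientAddGroup.mk_sub,
    QuotientAddGroup.eq_zero_iff]
  apply AddSubgroup.subset_closure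
  refine ⟨g, h, k, m3, m4, m1, m2, ?_⟩
  abel

theorem comb {M : Type*} [AddCommGroup M] (a1_2 a1_6 a1_8 a2_3 a2_4 a2_6 a2_7 a3_3 a3_5 a3_9 a3_10 a4_5 a4_8 a4_10 a5_7 a6_7 a6_8 a7_7 a7_8 a7_10 : M)
    (r0 : a3_5 + a4_8 = a4_5 + a3_9)
    (r1 : a3_10 + a2_4 = a4_10 + a3_3)
    (r2 : a2_7 + a3_9 = a2_3 + a5_7)
    (r3 : a2_3 + a3_5 = a3_3 + a2_6)
    (r4 : a1_6 + a7_7 = a6_7 + a1_2)
    (r5 : a7_10 + a6_7 = a7_7 + a3_10)
    (r6 : a7_8 + a4_10 = a7_10 + a6_8)
    (r7 : a7_8 + a4_5 = a5_7 + a1_8)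
    (r8 : a2_6 + a1_8 = a1_6 + a2_7)
    (r9 : a2_4 + a6_8 = a4_8 + a1_2) :
    2 • (a2_4 + a3_5 + a7_8 - (a1_2 + a3_3 + a5_7)) = 0 := by
  have e0 := sub_eq_zero.2 r0
  have e1 := sub_eq_zero.2 r1
  have e2 := sub_eq_zero.2 r2
  have e3 := sub_eq_zero.2 r3
  have e4 := sub_eq_zero.2 r4
  have e5 := sub_eq_zero.2 r5
  have e6 := sub_eq_zero.2 r6
  have e7 := sub_eq_zero.2 r7
  have e8 := sub_eq_zero.2 r8
  have e9 := sub_eq_zero.2 r9
  calc 2 • (a2_4 + a3_5 + a7_8 - (a1_2 + a3_3 + a5_7)) =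
      (a3_5 + a4_8 - (a4_5 + a3_9)) +
      (a3_10 + a2_4 - (a4_10 + a3_3)) +
      (a2_7 + a3_9 - (a2_3 + a5_7)) +
      (a2_3 + a3_5 - (a3_3 + a2_6)) +
      (a1_6 + a7_7 - (a6_7 + a1_2)) +
      (a7_10 + a6_7 - (a7_7 + a3_10)) +
      (a7_8 + a4_10 - (a7_10 + a6_8)) +
      (a7_8 + a4_5 - (a5_7 + a1_8)) +
      (a2_6 + a1_8 - (a1_6 + a2_7)) +
      (a2_4 + a6_8 - (a4_8 + a1_2)) := by abel
    _ = 0 := by rw [e0, e1, e2, e3, e4, e5, e6, e7, e8, e9]; simp

/-- the weight modulo `2` -/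
def w (p : Sym2 C11) : ZMod 2 := if p ∈ ({s(el 2, el 3), s(el 3, el 5), s(el 3, el 9)} : Finset (Sym2 C11)) then 1 else 0

theorem w_rel : ∀ g h k : C11, s(g, h) ∈ T → s(g * h, k) ∈ T → s(h, k) ∈ T → s(g, h * k) ∈ T →
    w s(h, k) + w s(g, h * k) - w s(g, h) - w s(g * h, k) = 0 := by
  decide +kernel

/-- the homomorphism `F_S → ℤ/2` -/
noncomputable def phi : (S →₀ ℤ) →+ ZMod 2 :=
  (Finsupp.linearCombination ℤ (fun s : S => w s.1)).toAddMonoidHom

theorem phi_single (s : S) : phi (Finsupp.single s 1) = w s.1 := by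
  unfold phi
  simp

theorem closure_le : AddSubgroup.closure (RS S) ≤ phi.ker := by
  rw [AddSubgroup.closure_le]
  rintro x ⟨g, h, k, h1, h2, h3, h4, rfl⟩
  rw [SetLike.mem_coe, AddMonoidHom.mem_ker, map_sub, map_sub, map_add, phi_single, phi_single,
    phi_single, phi_single]
  exact w_rel g h k h1 h2 h3 h4

theorem eq_zero_of_free (M : Type) [AddCommGroup M] [Module.Free ℤ M] (x : M) (h : 2 • x = 0) :
    x = 0 := by
  have : Module.IsTorsionFree ℤ M := inferInstance
  have h2 : (2 : ℤ) • x = 0 := by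
    rw [← h]; exact_mod_cast (natCast_zsmul x 2)
  rcases smul_eq_zero.1 h2 with h | h
  · norm_num at h
  · exact h

/-- For the cyclic group of order `11` there is a set `S` of (twenty) unordered pairs such that
`F_S / ⟨R_S⟩` has an element of order `2`; in particular `F_S / ⟨R_S⟩` is not free abelian. -/
theorem result : ∃ S : Set (Sym2 (Multiplicative (ZMod 11))),
    (∃ x : Quo S, x ≠ 0 ∧ 2 • x = 0) ∧ ¬ Module.Free ℤ (Quo S) := by
  have key : ∃ x : Quo S, x ≠ 0 ∧ 2 • x = 0 := by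
    have r0 := q_rel (el 4) (el 5) (el 3) (s(el 3, el 5)) (s(el 4, el 8)) (s(el 4, el 5)) (s(el 3, el 9))
      (by decide +kernel) (by decide +kernel) (by decide +kernel) (by decide +kernel)
      (by decide +kernel) (by decide +kernel) (by decide +kernel) (by decide +kernel)
    have r1 := q_rel (el 4) (el 10) (el 3) (s(el 3, el 10)) (s(el 2, el 4)) (s(el 4, el 10)) (s(el 3, el 3))
      (by decide +kernel) (by decide +kernel) (by decide +kernel) (by decide +kernel)
      (by decide +kernel) (by decide +kernel) (by decide +kernel) (by decide +kernel)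
    have r2 := q_rel (el 3) (el 2) (el 7) (s(el 2, el 7)) (s(el 3, el 9)) (s(el 2, el 3)) (s(el 5, el 7))
      (by decide +kernel) (by decide +kernel) (by decide +kernel) (by decide +kernel)
      (by decide +kernel) (by decide +kernel) (by decide +kernel) (by decide +kernel)
    have r3 := q_rel (el 3) (el 3) (el 2) (s(el 2, el 3)) (s(el 3, el 5)) (s(el 3, el 3)) (s(el 2, el 6))
      (by decide +kernel) (by decide +kernel) (by decide +kernel) (by decide +kernel)
      (by decide +kernel) (by decide +kernel) (by decide +kernel) (by decide +kernel)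
    have r4 := q_rel (el 7) (el 6) (el 1) (s(el 1, el 6)) (s(el 7, el 7)) (s(el 6, el 7)) (s(el 1, el 2))
      (by decide +kernel) (by decide +kernel) (by decide +kernel) (by decide +kernel)
      (by decide +kernel) (by decide +kernel) (by decide +kernel) (by decide +kernel)
    have r5 := q_rel (el 7) (el 7) (el 10) (s(el 7, el 10)) (s(el 6, el 7)) (s(el 7, el 7)) (s(el 3, el 10))
      (by decide +kernel) (by decide +kernel) (by decide +kernel) (by decide +kernel)
      (by decide +kernel) (by decide +kernel) (by decide +kernel) (by decide +kernel)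
    have r6 := q_rel (el 10) (el 7) (el 8) (s(el 7, el 8)) (s(el 4, el 10)) (s(el 7, el 10)) (s(el 6, el 8))
      (by decide +kernel) (by decide +kernel) (by decide +kernel) (by decide +kernel)
      (by decide +kernel) (by decide +kernel) (by decide +kernel) (by decide +kernel)
    have r7 := q_rel (el 5) (el 7) (el 8) (s(el 7, el 8)) (s(el 4, el 5)) (s(el 5, el 7)) (s(el 1, el 8))
      (by decide +kernel) (by decide +kernel) (by decide +kernel) (by decide +kernel)
      (by decide +kernel) (by decide +kernel) (by decide +kernel) (by decide +kernel)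
    have r8 := q_rel (el 1) (el 6) (el 2) (s(el 2, el 6)) (s(el 1, el 8)) (s(el 1, el 6)) (s(el 2, el 7))
      (by decide +kernel) (by decide +kernel) (by decide +kernel) (by decide +kernel)
      (by decide +kernel) (by decide +kernel) (by decide +kernel) (by decide +kernel)
    have r9 := q_rel (el 8) (el 4) (el 2) (s(el 2, el 4)) (s(el 6, el 8)) (s(el 4, el 8)) (s(el 1, el 2))
      (by decide +kernel) (by decide +kernel) (by decide +kernel) (by decide +kernel)
      (by decide +kernel) (by decide +kernel) (by decide +kernel) (by decide +kernel)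
    have hx := comb (q (s(el 1, el 2)) (by decide +kernel)) (q (s(el 1, el 6)) (by decide +kernel)) (q (s(el 1, el 8)) (by decide +kernel)) (q (s(el 2, el 3)) (by decide +kernel)) (q (s(el 2, el 4)) (by decide +kernel)) (q (s(el 2, el 6)) (by decide +kernel)) (q (s(el 2, el 7)) (by decide +kernel)) (q (s(el 3, el 3)) (by decide +kernel)) (q (s(el 3, el 5)) (by decide +kernel)) (q (s(el 3, el 9)) (by decide +kernel)) (q (s(el 3, el 10)) (by decide +kernel)) (q (s(el 4, el 5)) (by decide +kernel)) (q (s(el 4, el 8)) (by decide +kernel)) (q (s(el 4, el 10)) (by decide +kernel)) (q (s(el 5, el 7)) (by decide +kernel)) (q (s(el 6, el 7)) (by decide +kernel)) (q (s(el 6, el 8)) (by decide +kernel)) (q (s(el 7, el 7)) (by decide +kernel)) (q (s(el 7, el 8)) (by decide +kernel)) (q (s(el 7, el 10)) (by decide +kernel))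
      r0 r1 r2 r3 r4 r5 r6 r7 r8 r9
    refine ⟨_, ?_, hx⟩
    intro h0
    unfold q at h0
    simp only [← QuotientAddGroup.mk_add, ← QuotientAddGroup.mk_sub] at h0
    rw [QuotientAddGroup.eq_zero_iff] at h0
    have h1 := closure_le h0
    rw [AddMonoidHom.mem_ker] at h1
    simp only [map_add, map_sub, phi_single] at h1
    revert h1
    decide +kernel
  refine ⟨S, key, ?_⟩
  intro hfree
  obtain ⟨x, hx0, hx⟩ := key
  exact hx0 (eq_zero_of_free (Quo S) x hx)

end Pool.Agent.Results.MP_7c4268_al.TorsionCyclicEleven
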